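import Pool.Agent.MP_a001a6_co.Mg.Main

open Filter Pool.Agent.MP_a001a6_co

/-- In the Put-or-Take-a-Square game both the P-positions and the N-positions have natural
density zero. -/
theorem Pool.Agent.Results.MP_a001a6_co.DensityZero.result :
    Tendsto (fun x : ℕ => (({n : ℕ | n ≤ x ∧ IsP n}.ncard : ℝ) / x)) atTop (nhds 0) ∧
    Tendsto (fun x : ℕ => (({n : ℕ | n ≤ x ∧ IsN n}.ncard : ℝ) / x)) atTop (nhds 0) :=
  density_zero_of_base base_bound
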